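import Pool.Agent.W_2414c2_h93.Fin

/-!
# MP_2414c2_co : graphs in which every vertex shares its maximum cliques with few vertices
-/

set_option autoImplicit false

namespace Pool.Agent.Results.MP_2414c2_co.FewNeighbours

/-- The vertices `x ≠ v` for which some maximum clique of `G` contains both `v` and `x`
(so all of them are neighbours of `v`). -/
def partners {V : Type*} (G : SimpleGraph V) (v : V) : Set V :=
  {x | x ≠ v ∧ ∃ K : Finset V, G.IsClique (K : Set V) ∧ K.card = G.cliqueNum ∧ v ∈ K ∧ x ∈ K}

/-- If every vertex of a graph with clique number `ω` shares its maximum cliques with at most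
`4 ω - 50 √(ω log ω)` other vertices (for instance, if the maximum degree is at most this number),
then the graph has a 2-colouring in which no maximum clique is monochromatic. -/
theorem result : ∀ (V : Type*) [Fintype V] (G : SimpleGraph V),
    (∃ u v : V, G.Adj u v) →
    (∀ v : V, ((partners G v).ncard : ℝ) +
      50 * Real.sqrt ((G.cliqueNum : ℝ) * Real.log (G.cliqueNum : ℝ)) ≤
        4 * (G.cliqueNum : ℝ)) →
    ∃ c : V → Bool, ∀ s : Finset V,
      G.IsClique (s : Set V) →
      (∀ t : Finset V, G.IsClique (t : Set V) → t.card ≤ s.card) →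
      ∃ x ∈ s, ∃ y ∈ s, c x ≠ c y := by
  classical
  intro V _ G hedge h
  have hmax : ∀ K : Finset V, G.IsClique (K : Set V) → K.card ≤ G.cliqueNum := by
    intro K hK
    exact hK.card_le_cliqueNum
  have hw : 2 ≤ G.cliqueNum := by
    obtain ⟨u, v, huv⟩ := hedge
    have h1 := hmax {u, v} (by
      intro x hx y hy hxy
      simp only [Finset.coe_insert, Finset.coe_singleton, Set.mem_insert_iff,
        Set.mem_singleton_iff] at hx hy
      rcases hx with rfl | rfl <;> rcases hy with rfl | rfl
      · exact absurd rfl hxy
      · exact huv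
      · exact huv.symm
      · exact absurd rfl hxy)
    rwa [Finset.card_pair huv.ne] at h1
  obtain ⟨c, hc⟩ := Pool.Agent.W_2414c2_h93.main G G.cliqueNum hw hmax (by
    intro v
    have h1 : (partners G v).ncard = (Pool.Agent.W_2414c2_h93.nb G G.cliqueNum v).card := by
      rw [← Set.ncard_coe_finset]
      congr 1
      ext x
      rw [Finset.mem_coe, Pool.Agent.W_2414c2_h93.mem_nb]
      rfl
    rw [← h1]
    exact h v)
  refine ⟨c, ?_⟩
  intro s hs hsmax
  apply hc s hs
  apply le_antisymm (hmax s hs)
  obtain ⟨t, ht⟩ := G.exists_isNClique_cliqueNum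
  rw [← ht.card_eq]
  exact hsmax t ht.isClique

end Pool.Agent.Results.MP_2414c2_co.FewNeighbours
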