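import Pool.Agent.W_2414c2_h42.Fin

/-!
# MP_2414c2_co : odd-hole-free graphs without an induced `S(1,1,3)` are 2-divisible
-/

set_option autoImplicit false

namespace Pool.Agent.Results.MP_2414c2_co.LongForkFree

/-- The graph `S(1,1,3)`: a claw with centre `0` and leaves `1`, `2`, `3`, in which the edge `03`
is prolonged to the path `0 - 3 - 4 - 5`. -/
def s113 : SimpleGraph (Fin 6) :=
  SimpleGraph.fromEdgeSet {s(0, 1), s(0, 2), s(0, 3), s(3, 4), s(4, 5)}

/-- Every finite graph with at least one edge, no odd hole and no induced `S(1,1,3)` has a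
2-colouring of its vertices in which no maximum clique is monochromatic. -/
theorem result : ∀ (V : Type*) [Fintype V] (G : SimpleGraph V),
    (∃ u v : V, G.Adj u v) →
    (∀ k : ℕ, 2 ≤ k → IsEmpty (SimpleGraph.cycleGraph (2 * k + 1) ↪g G)) →
    IsEmpty (s113 ↪g G) →
    ∃ c : V → Bool, ∀ s : Finset V,
      G.IsClique (s : Set V) →
      (∀ t : Finset V, G.IsClique (t : Set V) → t.card ≤ s.card) →
      ∃ x ∈ s, ∃ y ∈ s, c x ≠ c y := by
  intro V _ G hedge hodd hH
  have hs : HM42.NoS G := by
    intro c x y p q s hcx hcy hcp hpq hqs hxy nxy nxp nxq nxs nyp nyq nys ncq ncs nps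
    have n1 : x ≠ p := by
      rintro rfl
      exact nxq hpq
    have n2 : y ≠ p := by
      rintro rfl
      exact nyq hpq
    have n3 : c ≠ q := by
      rintro rfl
      exact nxq hcx.symm
    have n4 : c ≠ s := by
      rintro rfl
      exact nxs hcx.symm
    have n5 : p ≠ s := by
      rintro rfl
      exact ncs hcp
    have n6 : x ≠ q := by
      rintro rfl
      exact ncq hcx
    have n7 : x ≠ s := by
      rintro rfl
      exact ncs hcx
    have n8 : y ≠ q := by
      rintro rfl
      exact ncq hcy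
    have n9 : y ≠ s := by
      rintro rfl
      exact ncs hcy
    refine hH.false ⟨⟨![c, x, y, p, q, s], ?_⟩, ?_⟩
    · intro a b hab
      fin_cases a <;> fin_cases b <;> first
        | rfl
        | (exfalso; revert hab; simp [hcx.ne, hcx.ne', hcy.ne, hcy.ne', hcp.ne, hcp.ne', hpq.ne,
            hpq.ne', hqs.ne, hqs.ne', hxy, hxy.symm, n1, n1.symm, n2, n2.symm, n3, n3.symm, n4,
            n4.symm, n5, n5.symm, n6, n6.symm, n7, n7.symm, n8, n8.symm, n9, n9.symm])
    · intro a b
      have e1 : ¬ G.Adj y x := fun h => nxy h.symm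
      have e2 : ¬ G.Adj p x := fun h => nxp h.symm
      have e3 : ¬ G.Adj q x := fun h => nxq h.symm
      have e4 : ¬ G.Adj s x := fun h => nxs h.symm
      have e5 : ¬ G.Adj p y := fun h => nyp h.symm
      have e6 : ¬ G.Adj q y := fun h => nyq h.symm
      have e7 : ¬ G.Adj s y := fun h => nys h.symm
      have e8 : ¬ G.Adj q c := fun h => ncq h.symm
      have e9 : ¬ G.Adj s c := fun h => ncs h.symm
      have e10 : ¬ G.Adj s p := fun h => nps h.symm
      show G.Adj (![c, x, y, p, q, s] a) (![c, x, y, p, q, s] b) ↔ _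
      fin_cases a <;> fin_cases b <;>
        simp [s113, hcx, hcx.symm, hcy, hcy.symm, hcp, hcp.symm, hpq, hpq.symm, hqs, hqs.symm,
          nxy, nxp, nxq, nxs, nyp, nyq, nys, ncq, ncs, nps, e1, e2, e3, e4, e5, e6, e7, e8, e9,
          e10]
  exact HM89.final hedge (fun W => HM42.good_of_S hodd hs W)

end Pool.Agent.Results.MP_2414c2_co.LongForkFree
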